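import Mathlib

set_option autoImplicit false

namespace Pool.Agent.Lib.MP_91bf1e_al

/-- The ball of radius `n` about `1` in the word metric of `G` with respect to `X`:
all products of at most `n` elements of `X ∪ X⁻¹`. -/
def ball {G : Type} [Group G] (X : Set G) (n : ℕ) : Set G :=
  {g | ∃ l : List G, l.length ≤ n ∧ (∀ x ∈ l, x ∈ X ∨ x⁻¹ ∈ X) ∧ l.prod = g}

/-- The `φ`-conjugacy class of `y`: all `x` with `x = z y φ(z)⁻¹` for some `z`. -/
def twistedClass {G : Type} [Group G] (φ : G →* G) (y : G) : Set G :=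
  {x | ∃ z : G, x = z * y * (φ z)⁻¹}

/-- The set of `φ`-conjugacy classes meeting the ball of radius `n`. -/
def classesMeetingBall {G : Type} [Group G] (X : Set G) (φ : G →* G) (n : ℕ) : Set (Set G) :=
  {c | ∃ y ∈ ball X n, c = twistedClass φ y}

/-- The `φ`-twisted conjugacy ratio of `G` with respect to `X`. -/
noncomputable def tcr {G : Type} [Group G] (X : Set G) (φ : G →* G) : ℝ :=
  Filter.limsup
    (fun n : ℕ => ((classesMeetingBall X φ n).ncard : ℝ) / ((ball X n).ncard : ℝ)) Filter.atTop

end Pool.Agent.Lib.MP_91bf1e_al
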