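import Mathlib

set_option autoImplicit false

namespace Pool.Agent.Lib.MP_91bf1e_al

open FreeGroup

/-- Words. -/
abbrev W := List (Bool × Bool)

/-- The fourth power of every letter. -/
def P : W → W
  | [] => []
  | x :: L => x :: x :: x :: x :: P L

lemma length_P (L : W) : (P L).length = 4 * L.length := by
  induction L with
  | nil => rfl
  | cons x L ih => simp [P, ih]; ring

lemma isReduced_P (L : W) (h : FreeGroup.IsReduced L) : FreeGroup.IsReduced (P L) := by
  induction L with
  | nil => exact FreeGroup.IsReduced.nil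
  | cons x L ih =>
    cases L with
    | nil => simp [P, FreeGroup.IsReduced]
    | cons y M =>
      rw [FreeGroup.isReduced_cons_cons] at h
      have := ih h.2
      simp only [P] at this ⊢
      simp only [FreeGroup.isReduced_cons_cons, implies_true, true_and]
      exact ⟨h.1, by simpa [FreeGroup.isReduced_cons_cons] using this⟩

/-- The endomorphism `a ↦ a⁴`, `b ↦ b⁴`. -/
def phi1 : FreeGroup Bool →* FreeGroup Bool := FreeGroup.lift (fun i => of i ^ 4)

lemma phi1_letter (x : Bool × Bool) : phi1 (mk [x]) = mk [x, x, x, x] := by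
  obtain ⟨i, b⟩ := x
  have h1 : phi1 (of i) = of i ^ 4 := by simp [phi1]
  cases b with
  | true =>
    have : (mk [(i, true)] : FreeGroup Bool) = of i := rfl
    rw [this, h1]
    rfl
  | false =>
    have : (mk [(i, false)] : FreeGroup Bool) = (of i)⁻¹ := rfl
    rw [this, _root_.map_inv, h1]
    rfl

lemma phi1_mk (L : W) : phi1 (mk L) = mk (P L) := by
  induction L with
  | nil => exact _root_.map_one phi1
  | cons x L ih =>
    have h1 : (mk (x :: L) : FreeGroup Bool) = mk [x] * mk L := rfl
    have h2 : (mk (P (x :: L)) : FreeGroup Bool) = mk [x, x, x, x] * mk (P L) := rfl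
    rw [h1, h2, _root_.map_mul, ih, phi1_letter]

lemma toWord_phi1 (z : FreeGroup Bool) : (phi1 z).toWord = P z.toWord := by
  have : phi1 z = mk (P z.toWord) := by
    rw [← phi1_mk, mk_toWord]
  rw [this, toWord_mk]
  exact (isReduced_P _ isReduced_toWord).reduce_eq

lemma phi1_injective : Function.Injective phi1 := by
  rw [injective_iff_map_eq_one]
  intro z hz
  have h := toWord_phi1 z
  rw [hz, toWord_one] at h
  have h2 := congrArg List.length h
  rw [length_P] at h2
  simp only [List.length_nil] at h2
  have h3 : z.toWord.length = 0 := by omega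
  exact toWord_eq_nil_iff.1 (List.length_eq_zero_iff.1 h3)

/-- Words whose two last letters involve different generators. -/
def Good (v : FreeGroup Bool) : Prop :=
  ∃ (L : W) (c d : Bool × Bool), v.toWord = L ++ [c, d] ∧ c.1 ≠ d.1

lemma norm_key (v z : FreeGroup Bool) (hv : Good v) (hz : z ≠ 1) :
    FreeGroup.norm v + FreeGroup.norm z < FreeGroup.norm (v * phi1 z) := by
  obtain ⟨L, c, d, hL, hcd⟩ := hv
  have hz' : z.toWord ≠ [] := by rwa [Ne, toWord_eq_nil_iff]
  obtain ⟨e, M, hM⟩ := List.exists_cons_of_ne_nil hz'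
  have hP : (phi1 z).toWord = e :: e :: e :: e :: P M := by
    rw [toWord_phi1, hM]; rfl
  have hPr : FreeGroup.IsReduced (e :: e :: e :: e :: P M) := hP ▸ isReduced_toWord
  have hvr : FreeGroup.IsReduced (L ++ [c, d]) := hL ▸ isReduced_toWord
  have hnz : FreeGroup.norm z = M.length + 1 := by simp [FreeGroup.norm, hM]
  have hnv : FreeGroup.norm v = L.length + 2 := by simp [FreeGroup.norm, hL]
  have hw : (v * phi1 z).toWord = reduce ((L ++ [c, d]) ++ (e :: e :: e :: e :: P M)) := by
    rw [toWord_mul, hL, hP]
  by_cases hde : d.1 = e.1 → d.2 = e.2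
  · have hred : FreeGroup.IsReduced ((L ++ [c, d]) ++ (e :: e :: e :: e :: P M)) := by
      unfold FreeGroup.IsReduced
      rw [List.isChain_append]
      refine ⟨hvr, hPr, ?_⟩
      intro x hx y hy
      simp at hx hy
      subst hx hy
      exact hde
    rw [hred.reduce_eq] at hw
    have : FreeGroup.norm (v * phi1 z) = L.length + 2 + (4 + 4 * M.length) := by
      unfold FreeGroup.norm
      rw [hw]
      simp [length_P]
      ring
    omega
  · push Not at hde
    obtain ⟨h1, h2⟩ := hde
    have hd : d = (e.1, !e.2) := by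
      apply Prod.ext
      · exact h1
      · simp only
        revert h2
        cases d.2 <;> cases e.2 <;> simp
    have hstep : Red.Step ((L ++ [c, d]) ++ (e :: e :: e :: e :: P M))
        ((L ++ [c]) ++ (e :: e :: e :: P M)) := by
      have := @Red.Step.not _ (L ++ [c]) (e :: e :: e :: P M) e.1 (!e.2)
      rw [hd]
      simpa using this
    rw [reduce.Step.eq hstep] at hw
    have hred : FreeGroup.IsReduced ((L ++ [c]) ++ (e :: e :: e :: P M)) := by
      unfold FreeGroup.IsReduced
      rw [List.isChain_append]
      refine ⟨?_, ?_, ?_⟩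
      · have h5 : L ++ [c, d] = (L ++ [c]) ++ [d] := by simp
        have h6 : List.IsChain (fun a b : Bool × Bool => a.1 = b.1 → a.2 = b.2) ((L ++ [c]) ++ [d]) := by
          rw [← h5]; exact hvr
        exact (List.isChain_append.1 h6).1
      · exact (FreeGroup.isReduced_cons_cons.1 hPr).2
      · intro x hx y hy
        simp at hx hy
        subst hx hy
        intro h3
        exact absurd (h3.trans h1.symm) hcd
    rw [hred.reduce_eq] at hw
    have : FreeGroup.norm (v * phi1 z) = L.length + 1 + (3 + 4 * M.length) := by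
      unfold FreeGroup.norm
      rw [hw]
      simp [length_P]
      ring
    omega

/-- Good elements are pairwise not twisted conjugate. -/
lemma good_unique (v v' z : FreeGroup Bool) (hv : Good v) (hv' : Good v')
    (h : v = z * v' * (phi1 z)⁻¹) : v = v' := by
  by_cases hz : z = 1
  · subst hz; simpa using h
  · exfalso
    have h1 : v * phi1 z = z * v' := by rw [h]; group
    have h2 : v' * phi1 z⁻¹ = z⁻¹ * v := by rw [h, _root_.map_inv]; group
    have k1 := norm_key v z hv hz
    have k2 := norm_key v' z⁻¹ hv' (inv_ne_one.2 hz)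
    rw [h1] at k1
    rw [h2] at k2
    have k3 := norm_mul_le z v'
    have k4 := norm_mul_le z⁻¹ v
    rw [norm_inv_eq] at k2 k4
    omega

/-- Appending a letter with given generator. -/
lemma exists_ext (w : FreeGroup Bool) (i : Bool) :
    ∃ v : FreeGroup Bool, ∃ e : Bool, v.toWord = w.toWord ++ [(i, e)] := by
  by_cases h : (i, false) ∈ w.toWord.getLast?
  · refine ⟨mk (w.toWord ++ [(i, false)]), false, ?_⟩
    rw [toWord_mk]
    apply FreeGroup.IsReduced.reduce_eq
    unfold FreeGroup.IsReduced
    rw [List.isChain_append]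
    refine ⟨isReduced_toWord, by simp, ?_⟩
    intro x hx y hy
    have : x = (i, false) := by
      rw [Option.mem_def] at hx h
      rw [hx] at h
      exact Option.some_injective _ h
    simp at hy
    subst hy this
    simp
  · refine ⟨mk (w.toWord ++ [(i, true)]), true, ?_⟩
    rw [toWord_mk]
    apply FreeGroup.IsReduced.reduce_eq
    unfold FreeGroup.IsReduced
    rw [List.isChain_append]
    refine ⟨isReduced_toWord, by simp, ?_⟩
    intro x hx y hy
    simp at hy
    subst hy
    intro hi
    obtain ⟨x1, x2⟩ := x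
    simp only at hi ⊢
    subst hi
    cases x2 with
    | true => rfl
    | false => exact absurd hx h

/-- The ball of radius `n` in the free group. -/
def B (n : ℕ) : Set (FreeGroup Bool) := {g | FreeGroup.norm g ≤ n}

lemma B_finite (n : ℕ) : (B n).Finite := by
  apply Set.Finite.of_finite_image (f := toWord)
  · apply (List.finite_length_le (Bool × Bool) n).subset
    rintro _ ⟨g, hg, rfl⟩
    exact hg
  · exact toWord_injective.injOn

lemma B_growth (n : ℕ) : 2 * (B n).ncard ≤ (B (n + 1)).ncard := by
  choose f e hf using exists_ext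
  have hinj : Set.InjOn (fun p : FreeGroup Bool × Bool => f p.1 p.2) (B n ×ˢ Set.univ) := by
    rintro ⟨w, i⟩ - ⟨w', i'⟩ - h
    simp only at h
    have h1 := congrArg toWord h
    rw [hf, hf] at h1
    have h2 := List.append_inj' h1 rfl
    have h3 : w = w' := toWord_injective h2.1
    have h4 := h2.2
    simp only [List.cons.injEq, Prod.mk.injEq, and_true] at h4
    rw [h3, h4.1]
  have hsub : (fun p : FreeGroup Bool × Bool => f p.1 p.2) '' (B n ×ˢ Set.univ) ⊆ B (n + 1) := by
    rintro _ ⟨⟨w, i⟩, ⟨hw, -⟩, rfl⟩
    have hw' : FreeGroup.norm w ≤ n := hw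
    show FreeGroup.norm (f w i) ≤ n + 1
    unfold FreeGroup.norm at hw' ⊢
    rw [hf]
    simpa using hw'
  have h1 := Set.ncard_le_ncard hsub (B_finite _)
  rw [hinj.ncard_image, Set.ncard_prod, Set.ncard_univ] at h1
  simp at h1
  omega

lemma B_upper (n : ℕ) : (B (n + 1)).ncard ≤ 5 * (B n).ncard := by
  have hsub : B (n + 1) ⊆ {1} ∪
      (fun p : FreeGroup Bool × (Bool × Bool) => p.1 * mk [p.2]) '' (B n ×ˢ Set.univ) := by
    intro g hg
    have hg' : g.toWord.length ≤ n + 1 := hg
    rcases List.eq_nil_or_concat g.toWord with h | ⟨L, x, h⟩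
    · left
      exact toWord_eq_nil_iff.1 h
    · right
      refine ⟨(mk L, x), ⟨?_, trivial⟩, ?_⟩
      · show FreeGroup.norm (mk L) ≤ n
        refine norm_mk_le.trans ?_
        rw [h] at hg'
        simpa using hg'
      · show mk L * mk [x] = g
        rw [mul_mk, ← List.concat_eq_append, ← h, mk_toWord]
  have hfin : ((fun p : FreeGroup Bool × (Bool × Bool) => p.1 * mk [p.2]) ''
      (B n ×ˢ Set.univ)).Finite := ((B_finite n).prod Set.finite_univ).image _
  have h1 := Set.ncard_le_ncard hsub ((Set.finite_singleton _).union hfin)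
  have h2 := Set.ncard_union_le {(1 : FreeGroup Bool)}
    ((fun p : FreeGroup Bool × (Bool × Bool) => p.1 * mk [p.2]) '' (B n ×ˢ Set.univ))
  have h3 := Set.ncard_image_le (f := fun p : FreeGroup Bool × (Bool × Bool) => p.1 * mk [p.2])
    ((B_finite n).prod (Set.finite_univ (α := Bool × Bool)))
  rw [Set.ncard_prod, Set.ncard_univ] at h3
  have h4 : Nat.card (Bool × Bool) = 4 := by simp
  rw [h4] at h3
  have h5 : 1 ≤ (B n).ncard := by
    exact (Set.ncard_pos (B_finite n)).2 ⟨1, by simp [B]⟩
  simp only [Set.ncard_singleton] at h2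
  omega

/-- A large set of pairwise non twisted conjugate elements. -/
lemma exists_many (n : ℕ) : ∃ S : Set (FreeGroup Bool), S ⊆ B (n + 2) ∧ (∀ v ∈ S, Good v) ∧
    S.ncard = (B n).ncard := by
  choose f e hf using exists_ext
  have hword : ∀ w, (f (f w true) false).toWord = w.toWord ++ [(true, e w true),
      (false, e (f w true) false)] := by
    intro w
    rw [hf, hf]
    simp
  refine ⟨(fun w => f (f w true) false) '' B n, ?_, ?_, ?_⟩
  · rintro _ ⟨w, hw, rfl⟩
    have hw' : FreeGroup.norm w ≤ n := hw
    show FreeGroup.norm (f (f w true) false) ≤ n + 2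
    unfold FreeGroup.norm at hw' ⊢
    rw [hword]
    simpa using hw'
  · rintro _ ⟨w, -, rfl⟩
    exact ⟨_, _, _, hword w, by simp⟩
  · apply Set.ncard_image_of_injective
    intro w w' h
    have h1 := congrArg toWord h
    simp only [hword] at h1
    exact toWord_injective (List.append_inj' h1 rfl).1

end Pool.Agent.Lib.MP_91bf1e_al
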