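import Pool.Agent.Lib.MP_91bf1e_al.Defs
import Pool.Agent.Lib.MP_91bf1e_al.Free

set_option autoImplicit false

namespace Pool.Agent.Lib.MP_91bf1e_al

open FreeGroup

section balls

variable {G : Type} [Group G] (X : Set G)

lemma one_mem_ball (n : ℕ) : (1 : G) ∈ ball X n := ⟨[], by simp, by simp, rfl⟩

lemma ball_mono {m n : ℕ} (h : m ≤ n) : ball X m ⊆ ball X n := by
  rintro g ⟨l, hl, hx, rfl⟩
  exact ⟨l, hl.trans h, hx, rfl⟩

lemma mul_mem_ball {m n : ℕ} {g h : G} (hg : g ∈ ball X m) (hh : h ∈ ball X n) :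
    g * h ∈ ball X (m + n) := by
  obtain ⟨l, hl, hx, rfl⟩ := hg
  obtain ⟨l', hl', hx', rfl⟩ := hh
  refine ⟨l ++ l', by simp; omega, ?_, by simp⟩
  intro x hxm
  rcases List.mem_append.1 hxm with h | h
  · exact hx x h
  · exact hx' x h

lemma letter_mem_ball {x : G} (h : x ∈ X ∨ x⁻¹ ∈ X) : x ∈ ball X 1 :=
  ⟨[x], by simp, by simpa using h, by simp⟩

/-- If `w` is a subadditive weight, at most one on letters, then balls have small weight. -/
lemma weight_le (w : G → ℕ) (h1 : w 1 = 0) (hm : ∀ g h, w (g * h) ≤ w g + w h)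
    (hX : ∀ x, x ∈ X ∨ x⁻¹ ∈ X → w x ≤ 1) (n : ℕ) (g : G) (hg : g ∈ ball X n) : w g ≤ n := by
  obtain ⟨l, hl, hx, rfl⟩ := hg
  have : w l.prod ≤ l.length := by
    clear hl
    induction l with
    | nil => simp [h1]
    | cons a l ih =>
      rw [List.prod_cons, List.length_cons]
      have h2 := hm a l.prod
      have h3 := hX a (hx a (by simp))
      have h4 := ih (fun x hxl => hx x (by simp [hxl]))
      omega
  omega

end balls

/-- The cyclic group of order three, multiplicatively. -/
abbrev C3 := Multiplicative (ZMod 3)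

/-- The group `F₂ × Z/3`. -/
abbrev G0 := FreeGroup Bool × C3

/-- A generator of `C3`. -/
def sig : C3 := Multiplicative.ofAdd 1

/-- The endomorphism `(a ↦ a⁴, b ↦ b⁴, s ↦ s⁻¹)`. -/
def phi0 : G0 →* G0 := MonoidHom.prodMap phi1 (invMonoidHom : C3 →* C3)

@[simp] lemma phi0_apply (g : FreeGroup Bool) (s : C3) : phi0 (g, s) = (phi1 g, s⁻¹) := rfl

/-- First generating set. -/
def X0 : Set G0 := {(of true, 1), (of false, 1), (1, sig)}

/-- Second generating set. -/
def Y0 : Set G0 := {g | g.1 = 1 ∨ g.1 = of true ∨ g.1 = of false}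

lemma C3_cases (s : C3) : s = 1 ∨ s = sig ∨ s = sig⁻¹ := by
  revert s
  decide

lemma sq_inj (s : C3) : ∃ t : C3, t * t = s := by
  revert s
  decide

lemma Y0_finite : Y0.Finite := by
  have : Y0 ⊆ ({1, of true, of false} : Set (FreeGroup Bool)) ×ˢ (Set.univ : Set C3) := by
    rintro ⟨g, s⟩ h
    exact ⟨by simpa [Y0] using h, trivial⟩
  exact Set.Finite.subset ((Set.toFinite _).prod Set.finite_univ) this

lemma X0_finite : X0.Finite := by
  unfold X0
  exact Set.toFinite _

/-- The weight for `X0`. -/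
def wX (g : G0) : ℕ := FreeGroup.norm g.1 + if g.2 = 1 then 0 else 1

/-- Words in the free group are in balls, generic form. -/
lemma free_mem_ball (X : Set G0) (h : ∀ i : Bool, (of i, (1 : C3)) ∈ X) (g : FreeGroup Bool) :
    (g, (1 : C3)) ∈ ball X (FreeGroup.norm g) := by
  have key : ∀ L : W, ((mk L : FreeGroup Bool), (1 : C3)) ∈ ball X L.length := by
    intro L
    induction L with
    | nil => exact one_mem_ball X 0
    | cons x L ih =>
      have h1 : ((mk (x :: L) : FreeGroup Bool), (1 : C3)) = (mk [x], 1) * (mk L, 1) := by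
        rw [Prod.mk_mul_mk, one_mul]
        rfl
      rw [h1, List.length_cons, add_comm]
      refine mul_mem_ball X (letter_mem_ball X ?_) ih
      obtain ⟨i, b⟩ := x
      cases b with
      | true => left; exact h i
      | false =>
        right
        have e : ((mk [(i, false)] : FreeGroup Bool), (1 : C3))⁻¹ = (of i, 1) := by
          rw [Prod.inv_mk, inv_one]
          rfl
        rw [e]
        exact h i
  have := key g.toWord
  rwa [mk_toWord] at this

lemma ball_X0 (n : ℕ) : ball X0 n = {g | wX g ≤ n} := by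
  apply Set.Subset.antisymm
  · intro g hg
    refine weight_le X0 wX ?_ ?_ ?_ n g hg
    · simp [wX]
    · rintro ⟨g, s⟩ ⟨h, t⟩
      have h1 := norm_mul_le g h
      have h2 : (if s * t = 1 then 0 else 1) ≤ (if s = 1 then 0 else 1) + (if t = 1 then 0 else 1) := by
        by_cases hs : s = 1 <;> by_cases ht : t = 1 <;> simp [hs, ht]
        split_ifs <;> simp
      show FreeGroup.norm (g * h) + (if s * t = 1 then 0 else 1) ≤
        (FreeGroup.norm g + (if s = 1 then 0 else 1)) + (FreeGroup.norm h + (if t = 1 then 0 else 1))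
      omega
    · have hall : ∀ x ∈ X0, wX x ≤ 1 := by
        rintro x (rfl | rfl | rfl)
        · simp [wX]
        · simp [wX]
        · simp [wX]; split_ifs <;> simp
      rintro x (hx | hx)
      · exact hall x hx
      · have h1 := hall _ hx
        have h2 : wX x⁻¹ = wX x := by
          simp [wX]
        omega
  · rintro ⟨g, s⟩ hg
    have hX : ∀ i : Bool, (of i, (1 : C3)) ∈ X0 := by
      intro i; cases i <;> simp [X0]
    have hg' : FreeGroup.norm g + (if s = 1 then 0 else 1) ≤ n := hg
    have h1 := free_mem_ball X0 hX g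
    rcases C3_cases s with rfl | hs
    · exact ball_mono X0 (by simpa using hg') h1
    · have hs1 : s ≠ 1 := by
        rcases hs with rfl | rfl <;> decide
      rw [if_neg hs1] at hg'
      have h2 : ((1 : FreeGroup Bool), s) ∈ ball X0 1 := by
        apply letter_mem_ball
        rcases hs with rfl | rfl
        · left; simp [X0]
        · right; simp [X0]
      have h3 := mul_mem_ball X0 h1 h2
      rw [Prod.mk_mul_mk, one_mul, mul_one] at h3
      exact ball_mono X0 hg' h3

lemma ball_Y0 (n : ℕ) : ball Y0 (n + 1) = {g | FreeGroup.norm g.1 ≤ n + 1} := by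
  apply Set.Subset.antisymm
  · intro g hg
    refine weight_le Y0 (fun g => FreeGroup.norm g.1) ?_ ?_ ?_ (n + 1) g hg
    · simp
    · intro g h
      exact norm_mul_le g.1 h.1
    · have hall : ∀ x ∈ Y0, FreeGroup.norm x.1 ≤ 1 := by
        rintro ⟨x, s⟩ h
        rcases h with h | h | h <;> simp only at h <;> subst h <;> simp
      rintro x (hx | hx)
      · exact hall x hx
      · have h1 := hall _ hx
        simpa using h1
  · rintro ⟨g, s⟩ hg
    have hg' : FreeGroup.norm g ≤ n + 1 := hg
    have hY : ∀ i : Bool, (of i, (1 : C3)) ∈ Y0 := by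
      intro i; cases i <;> simp [Y0]
    rcases h : g.toWord with _ | ⟨x, L⟩
    · have h1 : g = 1 := toWord_eq_nil_iff.1 h
      subst h1
      exact ball_mono Y0 (by omega) (letter_mem_ball Y0 (Or.inl (by simp [Y0])))
    · have hL : FreeGroup.norm (mk L : FreeGroup Bool) ≤ n := by
        refine norm_mk_le.trans ?_
        have : g.toWord.length ≤ n + 1 := hg'
        rw [h] at this
        simpa using this
      have h1 := ball_mono Y0 hL (free_mem_ball Y0 hY (mk L))
      have h2 : ((mk [x] : FreeGroup Bool), s) ∈ ball Y0 1 := by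
        apply letter_mem_ball
        obtain ⟨i, b⟩ := x
        cases b with
        | true =>
          left
          cases i
          · right; right; rfl
          · right; left; rfl
        | false =>
          right
          cases i
          · right; right; rfl
          · right; left; rfl
      have h3 := mul_mem_ball Y0 h2 h1
      rw [Prod.mk_mul_mk, mul_one, mul_mk, List.singleton_append, ← h, mk_toWord] at h3
      rw [add_comm] at h3
      exact h3

lemma twistedClass_fst (g : FreeGroup Bool) (s t : C3) :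
    twistedClass phi0 (g, s) = twistedClass phi0 (g, t) := by
  have key : ∀ s t : C3, twistedClass phi0 (g, s) ⊆ twistedClass phi0 (g, t) := by
    rintro s t _ ⟨⟨z, r⟩, rfl⟩
    obtain ⟨q, hq⟩ := sq_inj (s * r * r * t⁻¹)
    refine ⟨(z, q), ?_⟩
    simp only [phi0_apply, Prod.mk_mul_mk, Prod.inv_mk, inv_inv, Prod.mk.injEq, true_and]
    calc r * s * r = (s * r * r * t⁻¹) * t := by
          rw [inv_mul_cancel_right]
          rw [mul_comm r s]
      _ = q * t * q := by rw [← hq, mul_right_comm]
  exact Set.Subset.antisymm (key s t) (key t s)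

/-- The classes meeting a ball, in terms of the free group. -/
lemma classes_eq (X : Set G0) (n : ℕ) (hX : Prod.fst '' ball X n = B n) :
    classesMeetingBall X phi0 n = (fun g => twistedClass phi0 (g, 1)) '' B n := by
  rw [← hX]
  ext c
  constructor
  · rintro ⟨⟨g, s⟩, hg, rfl⟩
    exact ⟨g, ⟨(g, s), hg, rfl⟩, twistedClass_fst g 1 s⟩
  · rintro ⟨g, ⟨⟨g', s⟩, hg, rfl⟩, rfl⟩
    exact ⟨(g', s), hg, twistedClass_fst g' 1 s⟩

lemma fst_ball_X0 (n : ℕ) : Prod.fst '' ball X0 n = B n := by
  rw [ball_X0]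
  ext g
  constructor
  · rintro ⟨⟨g', s⟩, hg, rfl⟩
    have hg' : FreeGroup.norm g' + (if s = 1 then 0 else 1) ≤ n := hg
    show FreeGroup.norm g' ≤ n
    omega
  · intro hg
    exact ⟨(g, 1), by simpa [wX, B] using hg, rfl⟩

lemma fst_ball_Y0 (n : ℕ) : Prod.fst '' ball Y0 (n + 1) = B (n + 1) := by
  rw [ball_Y0]
  ext g
  constructor
  · rintro ⟨⟨g', s⟩, hg, rfl⟩
    exact hg
  · intro hg
    exact ⟨(g, 1), hg, rfl⟩

lemma ncard_Y0 (n : ℕ) : (ball Y0 (n + 1)).ncard = 3 * (B (n + 1)).ncard := by
  have : ball Y0 (n + 1) = B (n + 1) ×ˢ (Set.univ : Set C3) := by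
    rw [ball_Y0]
    ext ⟨g, s⟩
    simp [B]
  rw [this, Set.ncard_prod, Set.ncard_univ]
  have h : Nat.card C3 = 3 := by
    rw [Nat.card_congr (Multiplicative.toAdd)]
    exact Nat.card_zmod 3
  rw [h, mul_comm]

lemma ncard_X0 (n : ℕ) : (ball X0 (n + 1)).ncard ≤ 2 * (B (n + 1)).ncard := by
  have hsub : ball X0 (n + 1) ⊆ (B (n + 1) ×ˢ ({1} : Set C3)) ∪ (B n ×ˢ ({sig, sig⁻¹} : Set C3)) := by
    rw [ball_X0]
    rintro ⟨g, s⟩ hg
    have hg' : FreeGroup.norm g + (if s = 1 then 0 else 1) ≤ n + 1 := hg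
    by_cases hs : s = 1
    · left
      rw [if_pos hs] at hg'
      exact ⟨hg', hs⟩
    · right
      rw [if_neg hs] at hg'
      refine ⟨by show FreeGroup.norm g ≤ n; omega, ?_⟩
      rcases C3_cases s with h | h | h
      · exact absurd h hs
      · left; exact h
      · right; exact h
  have hf1 : (B (n + 1) ×ˢ ({1} : Set C3)).Finite := (B_finite _).prod (Set.toFinite _)
  have hf2 : (B n ×ˢ ({sig, sig⁻¹} : Set C3)).Finite := (B_finite _).prod (Set.toFinite _)
  have h1 := Set.ncard_le_ncard hsub (hf1.union hf2)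
  have h2 := Set.ncard_union_le (B (n + 1) ×ˢ ({1} : Set C3)) (B n ×ˢ ({sig, sig⁻¹} : Set C3))
  rw [Set.ncard_prod, Set.ncard_prod, Set.ncard_singleton] at h2
  have h3 : ({sig, sig⁻¹} : Set C3).ncard ≤ 2 := Set.ncard_insert_le _ _ |>.trans (by simp)
  have h4 := B_growth n
  have h5 : (B n).ncard * ({sig, sig⁻¹} : Set C3).ncard ≤ (B n).ncard * 2 :=
    Nat.mul_le_mul_left _ h3
  omega

lemma classes_lower (n : ℕ) :
    (B n).ncard ≤ ((fun g => twistedClass phi0 (g, 1)) '' B (n + 2)).ncard := by
  obtain ⟨S, hS, hgood, hcard⟩ := exists_many n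
  have hinj : Set.InjOn (fun g : FreeGroup Bool => twistedClass phi0 (g, 1)) S := by
    intro v hv v' hv' h
    have h1 : ((v, 1) : G0) ∈ twistedClass phi0 (v, 1) := ⟨1, by simp⟩
    simp only at h
    rw [h] at h1
    obtain ⟨⟨z, r⟩, hz⟩ := h1
    have h2 := congrArg Prod.fst hz
    exact good_unique v v' z (hgood v hv) (hgood v' hv') h2
  rw [← hcard, ← hinj.ncard_image]
  exact Set.ncard_le_ncard (Set.image_mono hS) ((B_finite _).image _)

lemma ball_subset_closure {G : Type} [Group G] (X : Set G) (n : ℕ) :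
    ball X n ⊆ (Subgroup.closure X : Set G) := by
  rintro g ⟨l, -, hx, rfl⟩
  apply Subgroup.list_prod_mem
  intro x hxl
  rcases hx x hxl with h | h
  · exact Subgroup.subset_closure h
  · have h1 : x⁻¹ ∈ Subgroup.closure X := Subgroup.subset_closure h
    simpa using inv_mem h1

lemma closure_X0 : Subgroup.closure X0 = ⊤ := by
  rw [eq_top_iff]
  intro g _
  have h : g ∈ ball X0 (wX g) := by
    rw [ball_X0]
    exact le_refl (wX g)
  exact ball_subset_closure X0 (wX g) h

lemma closure_Y0 : Subgroup.closure Y0 = ⊤ := by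
  rw [eq_top_iff]
  intro g _
  have h : g ∈ ball Y0 (FreeGroup.norm g.1 + 1) := by
    rw [ball_Y0]
    exact Nat.le_succ _
  exact ball_subset_closure Y0 (FreeGroup.norm g.1 + 1) h

lemma phi0_injective : Function.Injective phi0 := by
  rintro ⟨g, s⟩ ⟨h, t⟩ heq
  simp only [phi0_apply, Prod.mk.injEq, inv_inj] at heq
  exact Prod.ext (phi1_injective heq.1) heq.2

/-- The main comparison. -/
theorem tcr_ne : tcr X0 phi0 ≠ tcr Y0 phi0 := by
  -- notation
  set c : ℕ → ℝ := fun n => (((fun g => twistedClass phi0 (g, 1)) '' B n).ncard : ℝ) with hc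
  set b : ℕ → ℝ := fun n => ((B n).ncard : ℝ) with hb
  have hbpos : ∀ n, 0 < b n := by
    intro n
    have : 0 < (B n).ncard := (Set.ncard_pos (B_finite n)).2 ⟨1, by simp [B]⟩
    simp only [hb]
    exact_mod_cast this
  have hcb : ∀ n, c n ≤ b n := by
    intro n
    have : ((fun g => twistedClass phi0 (g, 1)) '' B n).ncard ≤ (B n).ncard :=
      Set.ncard_image_le (B_finite n)
    simp only [hb, hc]
    exact_mod_cast this
  have hc0 : ∀ n, 0 ≤ c n := fun n => Nat.cast_nonneg _
  -- ratio sequences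
  set u : ℕ → ℝ := fun n => ((classesMeetingBall X0 phi0 n).ncard : ℝ) / ((ball X0 n).ncard : ℝ)
    with hu
  set v : ℕ → ℝ := fun n => ((classesMeetingBall Y0 phi0 n).ncard : ℝ) / ((ball Y0 n).ncard : ℝ)
    with hv
  have hv_eq : ∀ n, v (n + 1) = c (n + 1) / (3 * b (n + 1)) := by
    intro n
    simp only [hv, hc, hb]
    rw [classes_eq Y0 (n + 1) (fst_ball_Y0 n), ncard_Y0]
    push_cast
    rfl
  have hX_pos : ∀ n, 0 < ((ball X0 (n + 1)).ncard : ℝ) := by
    intro n
    have hfin : (ball X0 (n + 1)).Finite := by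
      apply Set.Finite.subset ((B_finite (n + 1)).prod (Set.finite_univ (α := C3)))
      intro g hg
      refine ⟨?_, trivial⟩
      rw [← fst_ball_X0]
      exact ⟨g, hg, rfl⟩
    have : 0 < (ball X0 (n + 1)).ncard := (Set.ncard_pos hfin).2 ⟨1, one_mem_ball _ _⟩
    exact_mod_cast this
  have hu_ge : ∀ n, c (n + 1) / (2 * b (n + 1)) ≤ u (n + 1) := by
    intro n
    simp only [hu]
    rw [classes_eq X0 (n + 1) (fst_ball_X0 (n + 1))]
    have h1 : ((ball X0 (n + 1)).ncard : ℝ) ≤ 2 * b (n + 1) := by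
      have := ncard_X0 n
      simp only [hb]
      exact_mod_cast this
    exact div_le_div_of_nonneg_left (hc0 (n + 1)) (hX_pos n) h1
  have hu_le : ∀ n, u (n + 1) ≤ 1 := by
    intro n
    simp only [hu]
    apply div_le_one_of_le₀ _ (Nat.cast_nonneg _)
    have hfin : (ball X0 (n + 1)).Finite := Set.finite_of_ncard_pos (by exact_mod_cast hX_pos n)
    have : (classesMeetingBall X0 phi0 (n + 1)).ncard ≤ (ball X0 (n + 1)).ncard := by
      have e : classesMeetingBall X0 phi0 (n + 1) = twistedClass phi0 '' ball X0 (n + 1) := by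
        ext c
        constructor
        · rintro ⟨y, hy, rfl⟩; exact ⟨y, hy, rfl⟩
        · rintro ⟨y, hy, rfl⟩; exact ⟨y, hy, rfl⟩
      rw [e]
      exact Set.ncard_image_le hfin
    exact_mod_cast this
  have huv : ∀ n, (3 / 2) * v (n + 1) ≤ u (n + 1) := by
    intro n
    refine le_trans (le_of_eq ?_) (hu_ge n)
    rw [hv_eq]
    have := hbpos (n + 1)
    field_simp
  have hv_lower : ∀ n, 1 / 75 ≤ v (n + 2) := by
    intro n
    rw [hv_eq (n + 1)]
    have h1 : b n ≤ c (n + 2) := by
      have := classes_lower n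
      simp only [hb, hc]
      exact_mod_cast this
    have h2 : b (n + 2) ≤ 25 * b n := by
      have e1 := B_upper n
      have e2 := B_upper (n + 1)
      have : (B (n + 2)).ncard ≤ 25 * (B n).ncard := by
        have e3 : n + 1 + 1 = n + 2 := rfl
        rw [e3] at e2
        omega
      simp only [hb]
      exact_mod_cast this
    have h3 := hbpos (n + 2)
    have e : n + 1 + 1 = n + 2 := rfl
    rw [e, div_le_div_iff₀ (by norm_num) (by positivity)]
    linarith
  have hv0 : ∀ n, 0 ≤ v n := by
    intro n; simp only [hv]; positivity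
  have hu0 : ∀ n, 0 ≤ u n := by
    intro n; simp only [hu]; positivity
  -- bounds for limsups
  have hbu : Filter.IsBoundedUnder (· ≤ ·) Filter.atTop u := by
    refine ⟨1, ?_⟩
    rw [Filter.eventually_map]
    filter_upwards [Filter.eventually_ge_atTop 1] with n hn
    obtain ⟨m, rfl⟩ : ∃ m, n = m + 1 := ⟨n - 1, by omega⟩
    exact hu_le m
  have hvb : Filter.IsBoundedUnder (· ≤ ·) Filter.atTop v := by
    refine ⟨1, ?_⟩
    rw [Filter.eventually_map]
    filter_upwards [Filter.eventually_ge_atTop 1] with n hn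
    obtain ⟨m, rfl⟩ : ∃ m, n = m + 1 := ⟨n - 1, by omega⟩
    have h1 := huv m
    have h2 := hu_le m
    have h3 := hv0 (m + 1)
    show v (m + 1) ≤ 1
    linarith
  have hvcb : Filter.IsCoboundedUnder (· ≤ ·) Filter.atTop v := by
    apply Filter.IsBoundedUnder.isCoboundedUnder_le
    refine ⟨0, ?_⟩
    rw [Filter.eventually_map]
    filter_upwards with n
    exact hv0 n
  have key3 : (1 : ℝ) / 75 ≤ Filter.limsup v Filter.atTop := by
    apply Filter.le_limsup_of_frequently_le _ hvb
    apply Filter.Eventually.frequently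
    filter_upwards [Filter.eventually_ge_atTop 2] with n hn
    obtain ⟨m, rfl⟩ : ∃ m, n = m + 2 := ⟨n - 2, by omega⟩
    exact hv_lower m
  intro heq
  have heq' : Filter.limsup u Filter.atTop = Filter.limsup v Filter.atTop := heq
  have hlt : (5 / 6) * Filter.limsup v Filter.atTop < Filter.limsup v Filter.atTop := by linarith
  have hfreq := Filter.frequently_lt_of_lt_limsup hvcb hlt
  have key : (3 / 2) * ((5 / 6) * Filter.limsup v Filter.atTop) ≤ Filter.limsup u Filter.atTop := by
    apply Filter.le_limsup_of_frequently_le _ hbu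
    refine (hfreq.and_eventually (Filter.eventually_ge_atTop 1)).mono ?_
    rintro n ⟨hn, hn1⟩
    obtain ⟨m, rfl⟩ : ∃ m, n = m + 1 := ⟨n - 1, by omega⟩
    have := huv m
    linarith
  rw [heq'] at key
  linarith

end Pool.Agent.Lib.MP_91bf1e_al
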